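import Pool.Agent.P8H67.TD.Stm

/-! Project TD, package CPT: compact supports of singular cycles. -/

set_option autoImplicit false

open Set Filter Topology

namespace Pool.Agent.P8H37.TD

open Pool.Agent.P8H67.TD
open Pool.Agent.H904R2 Pool.Agent.H904R2.MV Pool.Agent.H904R2.Prd
open Pool.Agent.Helper922.HB.Sc (Sing sbd supported_map single_mem_supported')
open Finsupp

/-- a cycle of `W` whose simplices lie in `U ⊆ W` bounds if `U` is acyclic -/
theorem bdy_of_sub {X : Type} [TopologicalSpace X] {U W : Set X} (hUW : U ⊆ W) (m : ℕ)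
    (hU : RAcyc U m) (z : Ch W m) (hz : IsCyc m z)
    (hs : ∀ σ ∈ z.support, range ((inc W).comp σ) ⊆ U) : IsBdy m z := by
  have h1 : psh (inc W) m z ∈ supported ℤ ℤ (inS U m) := by
    refine supported_map {σ | range ((inc W).comp σ) ⊆ U} (psh (inc W) m) _ ?_ z ?_
    · intro σ hσ
      rw [psh_single]
      exact single_mem_supported' hσ
    · rw [mem_supported]
      exact fun σ hσ => hs σ hσ
  obtain ⟨z', hz'⟩ := lift_ch U m _ h1
  have h2 : IsCyc m z' := by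
    refine isCyc_of_psh (inc U) m (psh_inc_inj U) z' ?_
    rw [hz']
    exact isCyc_psh (inc W) m z hz
  have h3 : psh (incl hUW) m z' = z := by
    apply psh_inc_inj W m
    rw [psh_psh, inc_incl, hz']
  rw [← h3]
  exact isBdy_psh (incl hUW) m z' (hU z' h2)

theorem cpt : S_CPT := by
  intro Z _ j hU W hW z hz
  have h1 : ∀ p : W, ∃ (l r : ℝ) (V : Set Z), IsOpen V ∧ (p : ℝ × Z) ∈ Ioo l r ×ˢ V ∧
      Ioo l r ×ˢ V ⊆ W := by
    intro p
    obtain ⟨A, hA, B, hB, hAB⟩ := mem_nhds_prod_iff.1 (hW.mem_nhds p.2)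
    obtain ⟨l, r, hlr, hsub⟩ := mem_nhds_iff_exists_Ioo_subset.1 hA
    obtain ⟨V, hVB, hV, hpV⟩ := mem_nhds_iff.1 hB
    exact ⟨l, r, V, hV, ⟨hlr, hpV⟩, (prod_mono hsub hVB).trans hAB⟩
  choose l r V hV hp hsub using h1
  have hK : IsCompact (⋃ σ ∈ z.support, range ((inc W).comp σ)) :=
    z.support.isCompact_biUnion fun σ _ => isCompact_range ((inc W).comp σ).continuous
  obtain ⟨t, ht⟩ := hK.elim_finite_subcover (fun p : W => Ioo (l p) (r p) ×ˢ V p)
    (fun p => isOpen_Ioo.prod (hV p)) (by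
      intro x hx
      simp only [mem_iUnion] at hx
      obtain ⟨σ, -, y, rfl⟩ := hx
      exact mem_iUnion.2 ⟨σ y, hp _⟩)
  have h2 : RAcyc (⋃ i : Fin t.card, Ioo (l (t.equivFin.symm i)) (r (t.equivFin.symm i)) ×ˢ
      V (t.equivFin.symm i) : Set (ℝ × Z)) (j + 1) := hU _ _ _ _ fun i => hV _
  refine bdy_of_sub (iUnion_subset fun i => hsub _) (j + 1) h2 z hz fun σ hσ => ?_
  intro x hx
  have h3 : x ∈ ⋃ σ ∈ z.support, range ((inc W).comp σ) := mem_iUnion₂.2 ⟨σ, hσ, hx⟩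
  obtain ⟨p, hpt, hxp⟩ := mem_iUnion₂.1 (ht h3)
  refine mem_iUnion.2 ⟨t.equivFin ⟨p, hpt⟩, ?_⟩
  rw [Equiv.symm_apply_apply]
  exact hxp

end Pool.Agent.P8H37.TD
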