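import Pool.Agent.P8H67.TD.Stm

/-! Project TD, package LIN: homology of open subsets of the line. -/

set_option autoImplicit false

open Set Filter Topology

namespace Pool.Agent.P8H37.TD

open Pool.Agent.P8H67.TD
open Pool.Agent.H904R2 Pool.Agent.H904R2.MV Pool.Agent.H904R2.Prd
open Pool.Agent.Helper922.HB.Sc (Sing sbd sface bd_single slice)
open Finsupp

section Disc

variable {D : Type} [TopologicalSpace D]

/-- the constant simplex through the zeroth vertex -/
noncomputable def cst (m k : ℕ) (σ : Sing D m) : Sing D k := ContinuousMap.const _ (σ (vtx 0))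

/-- change of the degree of constant simplices -/
noncomputable def up (m k : ℕ) : Ch D m →ₗ[ℤ] Ch D k := lmapDomain ℤ ℤ (cst m k)

theorem up_single (m k : ℕ) (σ : Sing D m) (a : ℤ) : up m k (single σ a) = single (cst m k σ) a := by
  simp [up]

theorem const_eq [DiscreteTopology D] (m : ℕ) (σ : Sing D m) : cst m m σ = σ := by
  ext t
  have : PreconnectedSpace (stdSimplex ℝ (Fin (m + 1))) :=
    Subtype.preconnectedSpace (convex_stdSimplex ℝ (Fin (m + 1))).isPreconnected
  exact PreconnectedSpace.constant this σ.continuous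

theorem up_up [DiscreteTopology D] (m k : ℕ) (z : Ch D m) : up k m (up m k z) = z := by
  refine ext_ch (L := (up k m).comp (up m k)) (L' := LinearMap.id) ?_ z
  intro σ
  simp only [LinearMap.comp_apply, up_single, LinearMap.id_apply]
  congr 1
  exact const_eq m σ

theorem sbd_disc [DiscreteTopology D] (n : ℕ) (z : Ch D (n + 1)) :
    sbd D n z = (if Even n then (0 : ℤ) else 1) • up (n + 1) n z := by
  refine ext_ch (L := sbd D n) (L' := (if Even n then (0 : ℤ) else 1) • up (n + 1) n) ?_ z
  intro σ
  have h1 : ∀ i : Fin (n + 2), sface n i σ = cst (n + 1) n σ := by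
    intro i
    conv_lhs => rw [← const_eq (n + 1) σ]
    rfl
  rw [sbd, bd_single, LinearMap.smul_apply, up_single]
  simp only [h1]
  rw [← Finset.sum_smul, Fin.sum_univ_eq_sum_range (fun i => (-1 : ℤ) ^ i), neg_one_geom_sum]
  congr 1
  by_cases h : Even n
  · rw [if_pos h, if_pos (by exact h.add (by decide))]
  · rw [if_neg h, if_neg (by rwa [Nat.even_add, iff_true_right (by decide)])]

theorem racyc_disc [DiscreteTopology D] (j : ℕ) : RAcyc D (j + 1) := by
  intro z hz
  have hz' : sbd D j z = 0 := hz
  by_cases h : Even j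
  · refine ⟨up (j + 1) (j + 2) z, ?_⟩
    rw [sbd_disc, if_neg (by rwa [Nat.even_add_one, not_not]), one_smul, up_up]
  · rw [sbd_disc, if_neg h, one_smul] at hz'
    refine ⟨0, ?_⟩
    rw [map_zero, ← up_up (j + 1) j z, hz', map_zero]

end Disc

theorem lin : S_LIN := by
  intro W hW j
  have hlc : LocallyConnectedSpace W := hW.isOpenEmbedding_subtypeVal.locallyConnectedSpace
  have hd : DiscreteTopology (ConnectedComponents W) :=
    ConnectedComponents.discreteTopology_iff.2 fun _ => isOpen_connectedComponent
  let f : C(W, ConnectedComponents W) := ⟨ConnectedComponents.mk, ConnectedComponents.continuous_coe⟩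
  let g : C(ConnectedComponents W, W) := ⟨Quotient.out, continuous_of_discreteTopology⟩
  have hmem : ∀ (x : W) (t : unitInterval),
      (1 - (t : ℝ)) * (g (f x) : ℝ) + (t : ℝ) * (x : ℝ) ∈ W := by
    intro x t
    have h1 : g (f x) ∈ connectedComponent x := by
      rw [← ConnectedComponents.coe_eq_coe']
      exact Quotient.out_eq _
    have h2 : IsPreconnected (Subtype.val '' connectedComponent x) :=
      isPreconnected_connectedComponent.image _ continuous_subtype_val.continuousOn
    have h3 : Convex ℝ (Subtype.val '' connectedComponent x) := h2.ordConnected.convex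
    have h4 := h3 (mem_image_of_mem Subtype.val h1) (mem_image_of_mem Subtype.val mem_connectedComponent)
      (show 0 ≤ 1 - (t : ℝ) by linarith [t.2.2]) t.2.1 (by ring)
    obtain ⟨y, -, hy⟩ := h4
    rw [smul_eq_mul, smul_eq_mul] at hy
    rw [← hy]
    exact y.2
  let H : C(W × unitInterval, W) :=
    ⟨fun p => ⟨(1 - (p.2 : ℝ)) * (g (f p.1) : ℝ) + (p.2 : ℝ) * (p.1 : ℝ), hmem p.1 p.2⟩, by
      apply Continuous.subtype_mk
      have : Continuous fun p : W × unitInterval => ((g (f p.1) : W) : ℝ) :=
        continuous_subtype_val.comp (g.continuous.comp (f.continuous.comp continuous_fst))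
      fun_prop⟩
  refine racyc_of_htpy f g H ?_ ?_ (j + 1) (racyc_disc j)
  · ext x
    simp [slice, H]
  · ext x
    simp [slice, H]

end Pool.Agent.P8H37.TD
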